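import Pool.Agent.H98.FJ.Transfer

/-!
# Groups of tree automorphisms of bounded type and the inheritance properties of the Farrell-Jones conjecture

Let `C` be any class of groups with the inheritance properties proved for the class of groups satisfying the
A-theoretic Farrell-Jones conjecture with coefficients and finite wreath products: it contains the finite groups and
the infinite cyclic group and is closed under isomorphism, subgroups, finite direct products, finite free products,
overgroups of finite index and directed colimits. Then `C` contains every group of automorphisms of a rooted tree `X^*`
(`X` finite) whose elements are products of automorphisms of bounded type and of automorphisms given by bounded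
automata.
-/

set_option autoImplicit false

namespace Pool.Agent.Results.MP_2a547c_gt.BoundedTreeGroups

open Pool.Agent.H98.FJ

theorem result (C : (G : Type) → [Group G] → Prop) (hC : Inherits C) (X : Type) [Finite X]
    (H : Subgroup (TreeAut X))
    (hH : H ≤ Subgroup.closure {g | BoundedType g ∨ (FiniteState g ∧ BoundedActivity g)}) :
    C H := by
  refine mem_of_boundedType hC H (hH.trans ?_)
  apply Subgroup.closure_mono
  rintro g (hg | ⟨h1, h2⟩)
  · exact hg
  · exact boundedType_of_automaton g h1 h2

end Pool.Agent.Results.MP_2a547c_gt.BoundedTreeGroups
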